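import Pool.Agent.Helper29.MM.Basic
import Pool.Agent.Helper35.MM.Int1
import Pool.Agent.Helper44.CM.Interface

/-!
# Project MM, block B3: from StUNI to the interface statement ST_BE
-/

open MeasureTheory Metric

namespace CM

namespace BEx

variable {n : ℕ}

theorem sqrt_ge_self_of_le_one {d : ℝ} (h0 : 0 ≤ d) (h1 : d ≤ 1) : d ≤ Real.sqrt d := by
  exact Real.le_sqrt_of_sq_le (by nlinarith)

theorem ub_of_bd {K : ℝ} {M : Mt n} (hK : 0 ≤ K) (h : ∀ i j, |M i j| ≤ K) : UB (n * K) M := by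
  intro v
  calc ∑ i, ∑ j, v i * M i j * v j ≤ ∑ i, ∑ j, K * ((v i ^ 2 + v j ^ 2) / 2) := by
        refine Finset.sum_le_sum fun i _ => Finset.sum_le_sum fun j _ => ?_
        have h1 : v i * M i j * v j ≤ |M i j| * (|v i| * |v j|) := by
          calc v i * M i j * v j ≤ |v i * M i j * v j| := le_abs_self _
            _ = |M i j| * (|v i| * |v j|) := by
                rw [abs_mul, abs_mul]
                ring
        have h2 : |v i| * |v j| ≤ (v i ^ 2 + v j ^ 2) / 2 := by
          have := two_mul_le_add_sq |v i| |v j|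
          rw [sq_abs, sq_abs] at this
          linarith
        calc v i * M i j * v j ≤ |M i j| * (|v i| * |v j|) := h1
          _ ≤ K * ((v i ^ 2 + v j ^ 2) / 2) :=
              mul_le_mul (h i j) h2 (by positivity) hK
    _ = n * K * ∑ i, v i ^ 2 := by
        have e : ∀ i : Fin n, ∑ j, K * ((v i ^ 2 + v j ^ 2) / 2)
            = K / 2 * (n * v i ^ 2) + K / 2 * ∑ j, v j ^ 2 := by
          intro i
          rw [← Finset.mul_sum]
          have : ∑ j, (v i ^ 2 + v j ^ 2) / 2 = (n * v i ^ 2 + ∑ j, v j ^ 2) / 2 := by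
            rw [← Finset.sum_div, Finset.sum_add_distrib]
            simp
          rw [this]
          ring
        rw [Finset.sum_congr rfl fun i _ => e i, Finset.sum_add_distrib, ← Finset.mul_sum,
          ← Finset.mul_sum, Finset.sum_const, Finset.card_univ, Fintype.card_fin, nsmul_eq_mul]
        ring

theorem tok_of_coef {K : ℝ} {τ : E n → Mt n} (h : Coef K τ) : TOK K⁻¹ (n * K) (2 * K) τ := by
  have hK : 0 ≤ K := by linarith [h.K_ge]
  refine ⟨fun x i j => (h.symm x).apply j i, h.lo, fun x => ub_of_bd hK (h.bd x), ?_, ?_, ?_⟩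
  · intro i j
    refine ⟨fun x => (h.bd x i j).trans (by linarith), fun x y => ?_⟩
    have hd0 : 0 ≤ dist x y := dist_nonneg
    by_cases hd : dist x y ≤ 1
    · have h1 := sqrt_ge_self_of_le_one hd0 hd
      calc |τ x i j - τ y i j| ≤ K * dist x y := h.lip x y i j
        _ ≤ K * Real.sqrt (dist x y) := mul_le_mul_of_nonneg_left h1 hK
        _ ≤ 2 * K * Real.sqrt (dist x y) := by
            have := mul_nonneg hK (Real.sqrt_nonneg (dist x y))
            linarith
    · have h1 : 1 ≤ Real.sqrt (dist x y) := by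
        rw [Real.one_le_sqrt]
        exact (not_le.1 hd).le
      have h2 : |τ x i j - τ y i j| ≤ 2 * K := by
        have a1 := abs_sub (τ x i j) (τ y i j)
        have a2 := h.bd x i j
        have a3 := h.bd y i j
        linarith
      calc |τ x i j - τ y i j| ≤ 2 * K * 1 := by linarith
        _ ≤ 2 * K * Real.sqrt (dist x y) := mul_le_mul_of_nonneg_left h1 (by linarith)
  · intro x i j
    refine (h.far x i j).trans ?_
    apply div_le_div_of_nonneg_right _ (Real.sqrt_nonneg _)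
    linarith
  · intro x y i j
    refine (h.lip x y i j).trans ?_
    apply mul_le_mul_of_nonneg_right _ dist_nonneg
    linarith

/-- The gradient is locally Hoelder when the second derivatives are bounded. -/
theorem pd_lip {u : E n → ℝ} (hu : ContDiff ℝ 2 u) {M : ℝ} (hM0 : 0 ≤ M)
    (hM : ∀ i j x, |pd i (pd j u) x| ≤ M) (j : Fin n) (x y : E n) (hxy : dist y x ≤ 1) :
    |pd j u y - pd j u x| ≤ n * M * Real.sqrt (dist y x) := by
  have h1 := (convex_univ : Convex ℝ (Set.univ : Set (E n))).norm_image_sub_le_of_norm_fderiv_le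
    (f := pd j u) (C := n * M)
    (fun z _ => (B3.contDiff_pd_of_two j hu).differentiable one_ne_zero z)
    (fun z _ => B3.norm_fderiv_le fun i => hM i j z) (Set.mem_univ x) (Set.mem_univ y)
  rw [Real.norm_eq_abs, ← dist_eq_norm] at h1
  refine h1.trans ?_
  apply mul_le_mul_of_nonneg_left (sqrt_ge_self_of_le_one dist_nonneg hxy)
  positivity

end BEx

open BEx in
/-- The estimate `ST_BE` without the hypothesis on the gradient, from `StUNI`. -/
theorem BEx.be_of_UNI (h1 : ∀ n, StUNI n) (n : ℕ) (K κ : ℝ) (hκ : κ ≤ 1) :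
    ∃ C R : ℝ, ∀ (τ : E n → Mt n), Coef K τ →
      ∀ (u : E n → ℝ) (M N : ℝ), H2 0 M u → H0 N (AK τ κ u) →
      (∀ x, ‖x‖ ≤ R → |u x| ≤ N) → H2 0 (C * N) u := by
  by_cases hK : 1 ≤ K
  swap
  · exact ⟨0, 0, fun τ hτ => absurd hτ.K_ge hK⟩
  have hK0 : 0 < K := by linarith
  obtain ⟨R, A, hR, hA, hU⟩ := h1 n K⁻¹ (n * K) (2 * K) κ (inv_pos.2 hK0) hκ
  -- the small parameters
  obtain ⟨ε1, h01, h11, hε1⟩ : ∃ ε : ℝ, 0 < ε ∧ ε ≤ 1 ∧ A * ε ≤ 1 / 8 := by
    refine ⟨1 / (8 * (A + 1)), by positivity, ?_, ?_⟩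
    · rw [div_le_one (by positivity)]
      linarith
    · rw [mul_one_div, div_le_div_iff₀ (by positivity) (by norm_num)]
      linarith
  set G1 : ℝ := 2 / ε1 ^ 2 with hG1
  have hG10 : 0 ≤ G1 := by positivity
  obtain ⟨ε2, h02, h12, hε2⟩ : ∃ ε : ℝ, 0 < ε ∧ ε ≤ 1 ∧ A * (1 + G1) * (ε * n) ≤ 1 / 8 := by
    refine ⟨1 / (8 * ((A + 1) * (1 + G1) * (n + 1))), by positivity, ?_, ?_⟩
    · rw [div_le_one (by positivity)]
      have a1 : 1 ≤ (A + 1) * (1 + G1) := by nlinarith
      have a2 : (1 : ℝ) ≤ n + 1 := by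
        have : (0 : ℝ) ≤ n := Nat.cast_nonneg n
        linarith
      nlinarith
    · have e : A * (1 + G1) * (1 / (8 * ((A + 1) * (1 + G1) * (n + 1))) * n)
          = (A * (1 + G1) * n) / (8 * ((A + 1) * (1 + G1) * (n + 1))) := by
        field_simp
      rw [e, div_le_div_iff₀ (by positivity) (by norm_num)]
      have a1 : A * (1 + G1) ≤ (A + 1) * (1 + G1) := by nlinarith
      have a2 : (n : ℝ) ≤ n + 1 := by linarith
      have a3 : A * (1 + G1) * n ≤ (A + 1) * (1 + G1) * (n + 1) :=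
        mul_le_mul a1 a2 (Nat.cast_nonneg n) (by positivity)
      linarith
  set G2 : ℝ := 2 / ε2 ^ 2 with hG2
  have hG20 : 0 ≤ G2 := by positivity
  refine ⟨2 * (A * (2 + (1 + G1) * G2)), R + 2, ?_⟩
  intro τ hτ u M0 N hu hAK huN
  have hN : 0 ≤ N := hAK.nonneg
  have hu2 : ContDiff ℝ 2 u := by simpa using hu.1
  have hnn : (0 : ℝ) ≤ n := Nat.cast_nonneg n
  have key : ∀ M, H2 0 M u → H2 0 (M / 2 + A * (2 + (1 + G1) * G2) * N) u := by
    intro M hM
    refine ⟨hM.1, fun i j => ⟨(hM.2 i j).1, ?_⟩⟩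
    have hH : ∀ i j, H0 M (pd i (pd j u)) := fun i j => (hM.2 i j).2 [] (by simp)
    have hM0 : 0 ≤ M := (hH i j).nonneg
    have hud : Differentiable ℝ u := B3.differentiable_of_two hu2
    -- gradient on the ball of radius R + 1
    have hg1 : ∀ k, ∀ x, ‖x‖ ≤ R + 1 → |pd k u x| ≤ ε2 * (n * M) + G2 * N := by
      intro k x hx
      refine pd_interp k x h02 h12 (fun y _ => hud y) (fun y hy => huN y ?_) (by positivity)
        (fun y hy => pd_lip hu2 hM0 (fun i j x => (hH i j).1 x) k x y hy)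
      rw [mem_closedBall, dist_eq_norm] at hy
      calc ‖y‖ = ‖x + (y - x)‖ := by rw [add_sub_cancel]
        _ ≤ ‖x‖ + ‖y - x‖ := norm_add_le _ _
        _ ≤ R + 2 := by linarith
    -- second derivatives on the ball of radius R
    have hg2 : ∀ k l, ∀ x, ‖x‖ ≤ R → |pd k (pd l u) x| ≤
        ε1 * M + G1 * (ε2 * (n * M) + G2 * N) := by
      intro k l
      exact pd_interp_H0 ((B3.contDiff_pd_of_two l hu2).differentiable one_ne_zero) k h01 h11
        (hg1 l) (hH k l)
    have hB : 0 ≤ N + (ε2 * (n * M) + G2 * N) + (ε1 * M + G1 * (ε2 * (n * M) + G2 * N)) := by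
      positivity
    have h3 := hU τ (tok_of_coef hτ) u hu2 ⟨M, hH⟩ N
      (N + (ε2 * (n * M) + G2 * N) + (ε1 * M + G1 * (ε2 * (n * M) + G2 * N))) hN hB hAK
      (fun x hx => by
        have hxR : ‖x‖ ≤ R := by simpa using hx
        have p1 : 0 ≤ ε2 * (n * M) + G2 * N := by positivity
        have p2 : 0 ≤ ε1 * M + G1 * (ε2 * (n * M) + G2 * N) := by positivity
        refine ⟨(huN x (by linarith)).trans (by linarith), fun k =>
          (hg1 k x (by linarith)).trans (by linarith), fun k l => ?_⟩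
        exact (hg2 k l x hxR).trans (by linarith)) i j
    intro l hl
    have hl0 : l = [] := List.length_eq_zero_iff.1 (Nat.le_zero.1 hl)
    subst hl0
    refine h3.mono ?_
    have e : A * (N + (N + (ε2 * (n * M) + G2 * N) + (ε1 * M + G1 * (ε2 * (n * M) + G2 * N))))
        = (A * ε1) * M + (A * (1 + G1) * (ε2 * n)) * M + A * (2 + (1 + G1) * G2) * N := by
      ring
    rw [e]
    have q1 : (A * ε1) * M ≤ 1 / 8 * M := mul_le_mul_of_nonneg_right hε1 hM0
    have q2 : (A * (1 + G1) * (ε2 * n)) * M ≤ 1 / 8 * M := mul_le_mul_of_nonneg_right hε2 hM0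
    linarith
  have := H2.absorb (k := 0) (u := u) (B := A * (2 + (1 + G1) * G2) * N) ⟨M0, hu⟩ key
  refine this.mono' (le_of_eq ?_)
  ring

end CM
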