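import Pool.Agent.Helper29.MM.Stmts_B3

/-!
# Project MM, block B3, row UNI: the uniform estimate from LOC and FAR
-/

open MeasureTheory Metric

namespace CM

theorem row_UNI (n : ℕ) (hL : StLOC n) (hF : StFAR n) : StUNI n := by
  intro c C K κ hc hκ
  obtain ⟨r, A1, hr0, hr1, hA1, h1⟩ := hL c C K κ hc hκ
  obtain ⟨R1, A2, hR1, hA2, h2⟩ := hF c C K κ hc hκ
  have hsr : 0 < Real.sqrt r := Real.sqrt_pos.2 hr0
  refine ⟨2 * R1 + 3, (A2 + 1) + A1 * (2 * R1 + 2) + 2 * (A2 + 1) / Real.sqrt r, by linarith,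
    by positivity, ?_⟩
  intro τ hτ u hu hM N B hN hB hAK hJ i j
  have hfar := h2 τ hτ u hu hM N B hN hB hAK
    (fun x hx => hJ x (closedBall_subset_closedBall (by linarith) hx)) i j
  have hNB : 0 ≤ N + B := by linarith
  -- sup bound
  have hsup : ∀ x, |pd i (pd j u) x| ≤ (A2 + 1) * (N + B) := by
    intro x
    by_cases hx : 2 * R1 ≤ ‖x‖
    · have h3 := hfar.1 x hx
      nlinarith
    · have hx' : x ∈ closedBall (0 : E n) (2 * R1 + 3) := by
        rw [mem_closedBall, dist_zero_right]
        linarith [not_le.1 hx]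
      have h3 := (hJ x hx').2.2 i j
      nlinarith [mul_nonneg hA2 hNB]
  have hA : (A2 + 1) * (N + B) ≤
      ((A2 + 1) + A1 * (2 * R1 + 2) + 2 * (A2 + 1) / Real.sqrt r) * (N + B) := by
    apply mul_le_mul_of_nonneg_right _ hNB
    have : 0 ≤ A1 * (2 * R1 + 2) := by positivity
    have : 0 ≤ 2 * (A2 + 1) / Real.sqrt r := by positivity
    linarith
  refine ⟨fun x => (hsup x).trans hA, ?_⟩
  intro x y
  have hd : 0 ≤ Real.sqrt (dist x y) := Real.sqrt_nonneg _
  by_cases hxy : dist x y ≤ r
  · by_cases hx : ‖x‖ ≤ 2 * R1 + 1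
    · have hsub : closedBall x (2 * r) ⊆ closedBall (0 : E n) (2 * R1 + 3) := by
        intro z hz
        rw [mem_closedBall] at hz ⊢
        calc dist z 0 ≤ dist z x + dist x 0 := dist_triangle _ _ _
          _ ≤ 2 * r + (2 * R1 + 1) := by
              rw [dist_zero_right]
              linarith
          _ ≤ 2 * R1 + 3 := by linarith
      have h3 := h1 τ hτ x u hu hM N B hN hB
        ⟨fun z _ => hAK.1 z, fun z _ w _ => hAK.2 z w⟩
        (fun z hz => hJ z (hsub hz)) i j x (mem_closedBall_self hr0.le) y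
        (by rw [mem_closedBall, dist_comm]; exact hxy)
      refine h3.trans ?_
      apply mul_le_mul_of_nonneg_right _ hd
      apply mul_le_mul_of_nonneg_right _ hNB
      have h4 : A1 * (1 + ‖x‖) ≤ A1 * (2 * R1 + 2) := by
        apply mul_le_mul_of_nonneg_left _ hA1
        linarith
      have : 0 ≤ 2 * (A2 + 1) / Real.sqrt r := by positivity
      linarith
    · have hx1 : 2 * R1 ≤ ‖x‖ := by linarith [not_le.1 hx]
      have hy1 : 2 * R1 ≤ ‖y‖ := by
        have h5 : ‖x‖ ≤ ‖y‖ + dist x y := by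
          rw [dist_eq_norm]
          calc ‖x‖ = ‖y + (x - y)‖ := by congr 1; abel
            _ ≤ ‖y‖ + ‖x - y‖ := norm_add_le _ _
        linarith [not_le.1 hx]
      have h3 := hfar.2 x hx1 y hy1
      refine h3.trans ?_
      apply mul_le_mul_of_nonneg_right _ hd
      refine le_trans ?_ hA
      nlinarith
  · have hxy' : r < dist x y := not_le.1 hxy
    have h6 : Real.sqrt r ≤ Real.sqrt (dist x y) := Real.sqrt_le_sqrt hxy'.le
    have h7 : |pd i (pd j u) x - pd i (pd j u) y| ≤ 2 * ((A2 + 1) * (N + B)) := by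
      have a1 := hsup x
      have a2 := hsup y
      have a3 := abs_sub (pd i (pd j u) x) (pd i (pd j u) y)
      linarith
    refine h7.trans ?_
    have h8 : 1 ≤ Real.sqrt (dist x y) / Real.sqrt r := (one_le_div hsr).2 h6
    have h9 : 0 ≤ (A2 + 1) * (N + B) := by positivity
    calc 2 * ((A2 + 1) * (N + B)) ≤ 2 * ((A2 + 1) * (N + B)) *
          (Real.sqrt (dist x y) / Real.sqrt r) := by nlinarith
      _ = 2 * (A2 + 1) / Real.sqrt r * (N + B) * Real.sqrt (dist x y) := by
          field_simp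
      _ ≤ _ := by
          apply mul_le_mul_of_nonneg_right _ hd
          apply mul_le_mul_of_nonneg_right _ hNB
          have : 0 ≤ A1 * (2 * R1 + 2) := by positivity
          linarith

end CM
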